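import Pool.Agent.T9h98.EP.Defs

/-!
# Faces of the polytopes of project EP (piece FC)
-/

set_option autoImplicit false

open Set
open scoped RealInnerProductSpace

namespace Pool.Agent.T9h66.EP

open Pool.Agent.T9h98.DC Pool.Agent.T9h98.EP

/-- The set of maximum of a functional over the hull of a finite set. -/
theorem hull_max {d : ℕ} {V : Set (E d)} (hV : V.Finite) (hne : V.Nonempty) (l : E d →L[ℝ] ℝ) :
    {x ∈ convexHull ℝ V | ∀ y ∈ convexHull ℝ V, l y ≤ l x} =
      convexHull ℝ {v ∈ V | ∀ u ∈ V, l u ≤ l v} := by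
  obtain ⟨m, hm, hmax⟩ := hV.exists_maximalFor (fun v => l v) V hne
  have hmax' : ∀ u ∈ V, l u ≤ l m := by
    intro u hu
    rcases le_total (l u) (l m) with h | h
    · exact h
    · exact hmax hu h
  have hle : ∀ y ∈ convexHull ℝ V, l y ≤ l m := by
    intro y hy
    have : convexHull ℝ V ⊆ {y | l y ≤ l m} :=
      convexHull_min (fun u hu => hmax' u hu) (convex_halfSpace_le l.toLinearMap.isLinear _)
    exact this hy
  apply Subset.antisymm
  · rintro x ⟨hx, hxm⟩
    have hxl : l x = l m := le_antisymm (hle x hx) (hxm m (subset_convexHull ℝ V hm))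
    have hsplit : V = {v ∈ V | ∀ u ∈ V, l u ≤ l v} ∪ {v ∈ V | l v < l m} := by
      ext v
      simp only [mem_union, mem_sep_iff]
      constructor
      · intro hv
        rcases lt_or_ge (l v) (l m) with h | h
        · exact Or.inr ⟨hv, h⟩
        · exact Or.inl ⟨hv, fun u hu => (hmax' u hu).trans h⟩
      · rintro (h | h)
        · exact h.1
        · exact h.1
    by_cases h2 : {v ∈ V | l v < l m}.Nonempty
    · have h1 : {v ∈ V | ∀ u ∈ V, l u ≤ l v}.Nonempty := ⟨m, hm, hmax'⟩
      rw [hsplit, convexHull_union h1 h2, mem_convexJoin] at hx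
      obtain ⟨a, ha, b, hb, hab⟩ := hx
      have hla : l m ≤ l a := by
        have : convexHull ℝ {v ∈ V | ∀ u ∈ V, l u ≤ l v} ⊆ {y | l m ≤ l y} :=
          convexHull_min (fun u hu => hu.2 m hm) (convex_halfSpace_ge l.toLinearMap.isLinear _)
        exact this ha
      have hla' : l a ≤ l m := hle a (convexHull_mono (sep_subset _ _) ha)
      have hlb : l b < l m := by
        have : convexHull ℝ {v ∈ V | l v < l m} ⊆ {y | l y < l m} :=
          convexHull_min (fun u hu => hu.2) (convex_halfSpace_lt l.toLinearMap.isLinear _)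
        exact this hb
      obtain ⟨s, t, hs, ht, hst, rfl⟩ := hab
      rw [map_add, map_smul, map_smul, smul_eq_mul, smul_eq_mul] at hxl
      have ht0 : t = 0 := by
        by_contra hne
        have htp : 0 < t := lt_of_le_of_ne ht (Ne.symm hne)
        have h3 : t * l b < t * l m := mul_lt_mul_of_pos_left hlb htp
        have h4 : s * l a ≤ s * l m := mul_le_mul_of_nonneg_left hla' hs
        have h5 : s * l m + t * l m = l m := by rw [← add_mul, hst, one_mul]
        linarith
      have hs1 : s = 1 := by linarith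
      rw [ht0, hs1, one_smul, zero_smul, add_zero]
      exact ha
    · rw [not_nonempty_iff_eq_empty] at h2
      rw [h2, union_empty] at hsplit
      rw [← hsplit]
      exact hx
  · intro x hx
    refine ⟨convexHull_mono (sep_subset _ _) hx, fun y hy => (hle y hy).trans ?_⟩
    have : convexHull ℝ {v ∈ V | ∀ u ∈ V, l u ≤ l v} ⊆ {y | l m ≤ l y} :=
      convexHull_min (fun u hu => hu.2 m hm) (convex_halfSpace_ge l.toLinearMap.isLinear _)
    exact this hx

/-- `V ∩ F` for an exposed face. -/
theorem inter_max {d : ℕ} {V : Set (E d)} (l : E d →L[ℝ] ℝ) :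
    V ∩ {x ∈ convexHull ℝ V | ∀ y ∈ convexHull ℝ V, l y ≤ l x} =
      {v ∈ V | ∀ u ∈ V, l u ≤ l v} := by
  ext v
  constructor
  · rintro ⟨hv, -, h⟩
    exact ⟨hv, fun u hu => h u (subset_convexHull ℝ V hu)⟩
  · rintro ⟨hv, h⟩
    refine ⟨hv, subset_convexHull ℝ V hv, fun y hy => ?_⟩
    have : convexHull ℝ V ⊆ {y | l y ≤ l v} :=
      convexHull_min (fun u hu => h u hu) (convex_halfSpace_le l.toLinearMap.isLinear _)
    exact this hy

theorem omega_mem {d : ℕ} (D : RD d) (T : Finset (Fin d)) : D.ω ∈ D.VT T := by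
  refine ⟨D.mem, ?_⟩
  rw [sub_self]
  exact Submodule.zero_mem _

theorem inter_H {d : ℕ} (D : RD d) (T : Finset (Fin d)) : D.V ∩ D.H T = D.VT T := by
  apply Subset.antisymm
  · rintro v ⟨hv, hH⟩
    refine ⟨hv, ?_⟩
    have hconv : Convex ℝ {x : E d | D.ω - x ∈ Submodule.span ℝ (D.α '' (T : Set (Fin d)))} := by
      intro x hx y hy s t hs ht hst
      have : D.ω - (s • x + t • y) = s • (D.ω - x) + t • (D.ω - y) := by
        rw [smul_sub, smul_sub]
        have h : D.ω = s • D.ω + t • D.ω := by rw [← add_smul, hst, one_smul]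
        conv_lhs => rw [h]
        abel
      rw [mem_ofPred_eq, this]
      exact Submodule.add_mem _ (Submodule.smul_mem _ _ hx) (Submodule.smul_mem _ _ hy)
    exact convexHull_min (fun u hu => hu.2) hconv hH
  · intro v hv
    exact ⟨hv.1, subset_convexHull ℝ _ hv⟩

theorem span_top {d : ℕ} (D : RD d) : Submodule.span ℝ (D.α '' univ) = ⊤ := by
  rw [image_univ]
  exact D.lin.span_eq_top_of_card_eq_finrank' (by simp)

theorem VT_univ {d : ℕ} (D : RD d) : D.VT Finset.univ = D.V := by
  ext v
  constructor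
  · exact fun h => h.1
  · intro h
    refine ⟨h, ?_⟩
    rw [Finset.coe_univ, span_top D]
    exact Submodule.mem_top

/-- **FC** -/
theorem fc : S_FC := by
  intro hS hC hG d D
  have hfin := D.fin
  have hne : D.V.Nonempty := ⟨D.ω, D.mem⟩
  have h1 : ∀ F, IsFace D.P F → F = convexHull ℝ (D.V ∩ F) := by
    intro F hF
    obtain ⟨l, hl⟩ := hF.2 hF.1
    rw [hl]
    exact (hull_max hfin hne l).trans (congrArg (convexHull ℝ) (inter_max l).symm)
  refine ⟨h1, inter_H D, ?_, ?_⟩
  · intro T _
    refine ⟨⟨D.ω, subset_convexHull ℝ _ (omega_mem D T)⟩, fun _ => ?_⟩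
    obtain ⟨a, ha⟩ := (hS d D).1 fun i => if i ∈ T then 0 else 1
    refine ⟨innerSL ℝ a, ?_⟩
    have h2 := (hC hS d D).2.2 Finset.univ a fun i _ => by
      rw [real_inner_comm, ha i]
      split_ifs <;> norm_num
    have h3 : (Finset.univ.filter fun i => ⟪a, D.α i⟫ = 0) = T := by
      ext i
      rw [Finset.mem_filter, real_inner_comm, ha i]
      simp
    rw [h3, VT_univ] at h2
    rw [RD.H, ← h2]
    exact (hull_max hfin hne (innerSL ℝ a)).symm
  · intro T _ F hF hFT
    obtain ⟨l, hl⟩ := hF.2 hF.1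
    set a := (InnerProductSpace.toDual ℝ (E d)).symm l with ha
    have hal : ∀ x, ⟪a, x⟫ = l x := fun x => by
      rw [ha, InnerProductSpace.toDual_symm_apply]
    set M := {v ∈ D.V | ∀ u ∈ D.V, l u ≤ l v} with hM
    have hMF : D.V ∩ F = M := by
      rw [hl, hM]
      exact inter_max l
    have hFM : F = convexHull ℝ M := by rw [← hMF]; exact h1 F hF
    have hMne : M.Nonempty := by
      rw [← convexHull_nonempty_iff (𝕜 := ℝ), ← hFM]
      exact hF.1
    have hMT : M ⊆ D.VT T := by
      rw [← hMF, ← inter_H D T]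
      exact inter_subset_inter_right _ hFT
    obtain ⟨m, hm⟩ := hMne
    obtain ⟨g, hg, hga⟩ := (hG hS hC d D).2.1 T a
    have hgV := ((hG hS hC d D).1 T g hg).2 T (Finset.Subset.refl T)
    have hc := (hC hS d D).2.2 T (g a) hga
    have hg4 := (hG hS hC d D).2.2.2 (T.filter fun i => ⟪g a, D.α i⟫ = 0)
    refine ⟨g, hg, _, (Finset.filter_subset _ _).trans (Finset.filter_subset _ _), hg4.1, ?_⟩
    have hgM : g '' M = D.VT (T.filter fun i => ⟪g a, D.α i⟫ = 0) := by
      rw [← hc]
      ext w
      constructor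
      · rintro ⟨v, hv, rfl⟩
        refine ⟨?_, ?_⟩
        · rw [← hgV]; exact ⟨v, hMT hv, rfl⟩
        · intro u hu
          rw [← hgV] at hu
          obtain ⟨u', hu', rfl⟩ := hu
          rw [LinearIsometryEquiv.inner_map_map, LinearIsometryEquiv.inner_map_map, hal, hal]
          exact hv.2 u' hu'.1
      · rintro ⟨hw, hwm⟩
        rw [← hgV] at hw
        obtain ⟨v, hv, rfl⟩ := hw
        refine ⟨v, ⟨hv.1, fun u hu => ?_⟩, rfl⟩
        have h5 := hwm (g m) (by rw [← hgV]; exact ⟨m, hMT hm, rfl⟩)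
        rw [LinearIsometryEquiv.inner_map_map, LinearIsometryEquiv.inner_map_map, hal, hal] at h5
        exact (hm.2 u hu).trans h5
    rw [hFM]
    have h6 : g '' convexHull ℝ M = convexHull ℝ (g '' M) :=
      (g : E d →ₗ[ℝ] E d).image_convexHull M
    rw [h6, hgM, hg4.2]
    rfl

end Pool.Agent.T9h66.EP
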